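import Pool.Agent.T6.H71.Roth.Main

/-!
# A Rothberger space which is not `ω`-Rothberger, in ZFC

The definitions `Rothberger` and `OmegaRothberger` are in `Pool.Agent.T6.H71.Roth.Defs`.

Let `T` be the Aronszajn tree of the finite modifications `t` of the initial segments of a coherent
sequence of finite-to-one functions from the countable ordinals to the natural numbers (with integer
values), and let `L` be the set of all sequences `t ⌢ ∞` and `t ⌢ -∞`, ordered lexicographically.
The space `X` is the sum of `L` with the topology generated by the rays `[a, →)` and `(←, b)`, and
of `L` with the topology generated by the rays `(←, a]` and `(b, →)`.

* For each open cover of `L` (in the first topology) there is `δ < ω₁` such that all the points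
  with the same restriction to `δ` are contained in a member of the cover. Otherwise for each `δ`
  there is a bad class at the level `δ`; let `p δ` be its largest element. A neighbourhood of `p δ`
  covers all the points above `p δ` with the same restriction to `ξ δ + 1`, where `ξ δ < δ`. By the
  pressing down lemma, there is an uncountable set of `δ` on which `p δ` is decreasing, and its
  limit is a branch of the Aronszajn tree.
* As there are only countably many restrictions to `δ`, it follows that `L` and `X` are Rothberger.
* The points `(x, x)` form an uncountable closed discrete subset of the product of the two
  topologies, so the square of `X` is not Lindelöf, and `X` is not `ω`-Rothberger.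
-/

set_option autoImplicit false

namespace Pool.Agent.Results.MP_f9bcb0_lc.RothbergerNotOmega

open Cardinal Pool.Agent.T6.H71.Roth

/-- There is a first countable `T₄` space `X` of size `ℵ₁` which is Rothberger but not
`ω`-Rothberger; in fact, its square is not Lindelöf. -/
theorem result : ∃ (X : Type) (_ : TopologicalSpace X), T4Space X ∧
    FirstCountableTopology X ∧ #X = ℵ₁ ∧ Rothberger X ∧ ¬ OmegaRothberger X ∧
    ¬ LindelofSpace (X × X) :=
  exists_space

end Pool.Agent.Results.MP_f9bcb0_lc.RothbergerNotOmega
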